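import Mathlib

/-!
# Infinitely many sporadic 3-astral 4-configurations

For `m = 30k`, `k` a power of two, `k ≥ 2`, the symbol `m#(1,10k;6k,1;12k,10k)` belongs to a
connected 3-astral 4-configuration, and its cohort `{1,6k,12k}, {1,10k,10k}` is neither trivial nor
systematic.
-/

set_option autoImplicit false

namespace Pool.Agent.Results.MP_abecca_co.SporadicFamily

open Complex ComplexConjugate

/-! ## Definitions -/

/-- A straight line of the Euclidean plane `ℂ`. -/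
def IsLine (l : Set ℂ) : Prop := ∃ (u : ℂ) (d : ℝ), u ≠ 0 ∧ l = {z | (z * conj u).re = d}

/-- A geometric configuration `(n_4)` with point set `P` and line set `L`. -/
structure IsConfig (n : ℕ) (P : Set ℂ) (L : Set (Set ℂ)) : Prop where
  isLine : ∀ l ∈ L, IsLine l
  card_points : P.ncard = n
  card_lines : L.ncard = n
  four_points : ∀ l ∈ L, {p ∈ P | p ∈ l}.ncard = 4
  four_lines : ∀ p ∈ P, {l ∈ L | p ∈ l}.ncard = 4

/-- The incidence graph of the points `P` and the lines `L`. -/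
def incGraph (P : Set ℂ) (L : Set (Set ℂ)) : SimpleGraph (P ⊕ L) :=
  SimpleGraph.fromRel fun x y =>
    match x, y with
    | Sum.inl p, Sum.inr l => (p : ℂ) ∈ (l : Set ℂ)
    | _, _ => False

/-- `exp (2 π i a / m)` -/
noncomputable def rot (m : ℕ) (a : ℤ) : ℂ :=
  Complex.exp (((2 * Real.pi * a / m : ℝ) : ℂ) * I)

/-- The dihedral group of order `2 m` generated by the rotation by `2 π / m` about `0` and the
reflection `z ↦ w * conj z`, as a set of maps. -/
def dihedral (m : ℕ) (w : ℂ) : Set (ℂ → ℂ) :=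
  {f | ∃ a : ℤ, (f = fun z => rot m a * z) ∨ (f = fun z => rot m a * (w * conj z))}

/-- The points `⋃ P j` and the lines `⋃ L j` form a 3-astral 4-configuration with orbits `P j` and
`L j` and with symbol `m#(s 0, t 0; s 1, t 1; s 2, t 2)`. -/
structure IsThreeAstral (m : ℕ) (P : Fin 3 → Set ℂ) (L : Fin 3 → Set (Set ℂ))
    (s t : Fin 3 → ℕ) : Prop where
  config : IsConfig (3 * m) (⋃ j, P j) (⋃ j, L j)
  symm : ∃ w : ℂ, ‖w‖ = 1 ∧
    (∀ j, ∃ p, P j = {q | ∃ f ∈ dihedral m w, q = f p}) ∧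
    (∀ j, ∃ l : Set ℂ, L j = {l' | ∃ f ∈ dihedral m w, l' = f '' l})
  card_points : ∀ j, (P j).ncard = m
  card_lines : ∀ j, (L j).ncard = m
  polygon : ∀ j, ∃ p : ℂ, p ≠ 0 ∧ P j = Set.range fun a : ℤ => rot m a * p
  two_points_own : ∀ j, ∀ l ∈ L j, {p ∈ P j | p ∈ l}.ncard = 2
  two_points_next : ∀ j, ∀ l ∈ L j, {p ∈ P (j + 1) | p ∈ l}.ncard = 2
  two_lines_own : ∀ j, ∀ p ∈ P j, {l ∈ L j | p ∈ l}.ncard = 2
  two_lines_prev : ∀ j, ∀ p ∈ P (j + 1), {l ∈ L j | p ∈ l}.ncard = 2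
  span_own : ∀ j, ∀ l ∈ L j, ∃ p ∈ P j, rot m (s j) * p ∈ P j ∧ p ∈ l ∧ rot m (s j) * p ∈ l
  span_next : ∀ j, ∀ l ∈ L j, ∃ p ∈ P (j + 1),
    rot m (t j) * p ∈ P (j + 1) ∧ p ∈ l ∧ rot m (t j) * p ∈ l
  range_own : ∀ j, 1 ≤ s j ∧ 2 * s j < m
  range_next : ∀ j, 1 ≤ t j ∧ 2 * t j < m

/-- The multiset of the entries of `s`. -/
def entries (s : Fin 3 → ℕ) : Multiset ℤ := {(s 0 : ℤ), (s 1 : ℤ), (s 2 : ℤ)}

/-- The cohort of `(s, t)` is the unordered pair `A, B`. -/
def CohortIs (s t : Fin 3 → ℕ) (A B : Multiset ℤ) : Prop :=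
  (entries s = A ∧ entries t = B) ∨ (entries s = B ∧ entries t = A)

/-- The systematic cohorts. -/
def Systematic (m : ℕ) (s t : Fin 3 → ℕ) : Prop :=
  ∃ p q r : ℤ, 0 < p ∧ 0 < q ∧ 0 < r ∧
    (((m : ℤ) = 2 * q ∧ CohortIs s t {q - p, q - 2 * r, p} {q - 2 * p, q - r, r}) ∨
     ((m : ℤ) = 3 * q ∧ CohortIs s t {q + p, q - p, p} {q, q, 3 * p}) ∨
     ((m : ℤ) = 6 * q ∧ CohortIs s t {3 * q - p, r, p} {3 * q - 2 * p, 2 * q, r}) ∨
     ((m : ℤ) = 10 * q ∧ CohortIs s t {5 * q - p, 2 * p, p} {|5 * q - 4 * p|, 4 * q, 2 * q}))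

/-- The cohort is sporadic: neither trivial nor systematic. -/
def Sporadic (m : ℕ) (s t : Fin 3 → ℕ) : Prop := entries s ≠ entries t ∧ ¬ Systematic m s t

/-! ## Points and lines on a circular grid -/

section grid

variable {m : ℕ}

/-- `exp (π i a / m)` -/
noncomputable def e (m : ℕ) (a : ℤ) : ℂ := Complex.exp (((a * (Real.pi / m) : ℝ) : ℂ) * I)

lemma rot_eq (m : ℕ) (a : ℤ) : rot m a = e m (2 * a) := by
  unfold rot e
  congr 3
  push_cast
  ring

lemma e_add (a b : ℤ) : e m (a + b) = e m a * e m b := by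
  unfold e
  rw [← Complex.exp_add]
  congr 1
  push_cast
  ring

lemma e_zero : e m 0 = 1 := by simp [e]

lemma conj_e (a : ℤ) : conj (e m a) = e m (-a) := by
  unfold e
  rw [← Complex.exp_conj]
  congr 1
  simp

lemma norm_e (a : ℤ) : ‖e m a‖ = 1 := by
  unfold e
  rw [Complex.norm_exp_ofReal_mul_I]

lemma e_ne_zero (a : ℤ) : e m a ≠ 0 := by
  unfold e
  exact Complex.exp_ne_zero _

lemma e_re (a : ℤ) : (e m a).re = Real.cos (a * (Real.pi / m)) := by
  unfold e
  rw [Complex.exp_ofReal_mul_I_re]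

lemma e_eq_iff (hm : 0 < m) (a b : ℤ) : e m a = e m b ↔ (2 * m : ℤ) ∣ a - b := by
  have hm' : (m : ℂ) ≠ 0 := by exact_mod_cast hm.ne'
  have hpi : (Real.pi : ℂ) ≠ 0 := by exact_mod_cast Real.pi_ne_zero
  unfold e
  rw [Complex.exp_eq_exp_iff_exists_int]
  constructor
  · rintro ⟨n, hn⟩
    refine ⟨n, ?_⟩
    have h1 : (((a : ℂ) - b) - n * (2 * m)) * (Real.pi * I) = 0 := by
      have h2 : (a : ℂ) * (Real.pi / m) * I = b * (Real.pi / m) * I + n * (2 * Real.pi * I) := by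
        simpa using hn
      field_simp at h2
      have h3 : (a : ℂ) = b + m * n * 2 := by
        have := h2
        linear_combination this
      rw [h3]; ring
    have h2 : (Real.pi * I : ℂ) ≠ 0 := mul_ne_zero hpi I_ne_zero
    have h3 := (mul_eq_zero.1 h1).resolve_right h2
    have h4 : ((a - b - n * (2 * m) : ℤ) : ℂ) = 0 := by push_cast; exact h3
    have h5 : (a - b - n * (2 * m) : ℤ) = 0 := by exact_mod_cast h4
    linarith
  · rintro ⟨n, hn⟩
    refine ⟨n, ?_⟩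
    have : (a : ℂ) = b + 2 * m * n := by
      have h : a = b + 2 * m * n := by linarith
      rw [h]; push_cast; ring
    push_cast
    rw [this]
    field_simp

/-- The point at distance `r` in direction `π a / m`. -/
noncomputable def pt (m : ℕ) (r : ℝ) (a : ℤ) : ℂ := (r : ℂ) * e m a

/-- The line at distance `d` with normal direction `π b / m`. -/
def ln (m : ℕ) (d : ℝ) (b : ℤ) : Set ℂ := {z | (z * conj (e m b)).re = d}

lemma pt_mem_ln (r d : ℝ) (a b : ℤ) :
    pt m r a ∈ ln m d b ↔ r * Real.cos (((a - b : ℤ) : ℝ) * (Real.pi / m)) = d := by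
  unfold pt ln
  rw [Set.mem_ofPred_eq, conj_e, mul_assoc, ← e_add, Complex.re_ofReal_mul, e_re]
  rfl

lemma pt_eq_iff (hm : 0 < m) {r r' : ℝ} (hr : 0 < r) (hr' : 0 < r') (a b : ℤ) :
    pt m r a = pt m r' b ↔ r = r' ∧ (2 * m : ℤ) ∣ a - b := by
  constructor
  · intro h
    have h1 : ‖pt m r a‖ = ‖pt m r' b‖ := by rw [h]
    unfold pt at h1 h
    rw [norm_mul, norm_mul, norm_e, norm_e, Complex.norm_real, Complex.norm_real,
      Real.norm_of_nonneg hr.le, Real.norm_of_nonneg hr'.le, mul_one, mul_one] at h1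
    refine ⟨h1, ?_⟩
    rw [← e_eq_iff hm]
    rw [h1] at h
    have : (r' : ℂ) ≠ 0 := by exact_mod_cast hr'.ne'
    exact mul_left_cancel₀ this h
  · rintro ⟨h1, h2⟩
    rw [← e_eq_iff hm] at h2
    unfold pt
    rw [h1, h2]

lemma cos_grid (hm : 0 < m) (x c : ℤ) :
    Real.cos ((x : ℝ) * (Real.pi / m)) = Real.cos ((c : ℝ) * (Real.pi / m)) ↔
      (2 * m : ℤ) ∣ x - c ∨ (2 * m : ℤ) ∣ x + c := by
  have hm' : (m : ℝ) ≠ 0 := by exact_mod_cast hm.ne'
  have hpi := Real.pi_ne_zero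
  rw [Real.cos_eq_cos_iff]
  constructor
  · rintro ⟨k, h | h⟩
    · left
      refine ⟨-k, ?_⟩
      have h1 : (c : ℝ) = 2 * k * m + x := by
        field_simp at h
        linarith
      have h2 : c = 2 * k * m + x := by exact_mod_cast h1
      rw [h2]; ring
    · right
      refine ⟨k, ?_⟩
      have h1 : (c : ℝ) = 2 * k * m - x := by
        field_simp at h
        linarith
      have h2 : c = 2 * k * m - x := by exact_mod_cast h1
      rw [h2]; ring
  · rintro (⟨k, h⟩ | ⟨k, h⟩)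
    · refine ⟨-k, Or.inl ?_⟩
      have h1 : (x : ℝ) = c + 2 * m * k := by
        have : x = c + 2 * m * k := by linarith
        exact_mod_cast this
      rw [h1]
      push_cast
      field_simp
      ring
    · refine ⟨k, Or.inr ?_⟩
      have h1 : (x : ℝ) = - c + 2 * m * k := by
        have : x = - c + 2 * m * k := by linarith
        exact_mod_cast this
      rw [h1]
      field_simp
      ring

lemma ln_eq_iff (hm : 0 < m) {d d' : ℝ} (hd : 0 < d) (hd' : 0 < d') (a b : ℤ) :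
    ln m d a = ln m d' b ↔ d = d' ∧ (2 * m : ℤ) ∣ a - b := by
  constructor
  · intro h
    have h1 : pt m d a ∈ ln m d a := by rw [pt_mem_ln]; simp
    have h2 : pt m d' b ∈ ln m d' b := by rw [pt_mem_ln]; simp
    rw [h, pt_mem_ln] at h1
    rw [← h, pt_mem_ln] at h2
    have h3 : Real.cos (((b - a : ℤ) : ℝ) * (Real.pi / m)) =
        Real.cos (((a - b : ℤ) : ℝ) * (Real.pi / m)) := by
      rw [← Real.cos_neg]; congr 1; push_cast; ring
    rw [h3] at h2
    set C := Real.cos (((a - b : ℤ) : ℝ) * (Real.pi / m)) with hC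
    have hC1 : C ≤ 1 := Real.cos_le_one _
    have h4 : d ≤ d' := by rw [← h2]; nlinarith
    have h5 : d' ≤ d := by rw [← h1]; nlinarith
    have h6 : d = d' := le_antisymm h4 h5
    refine ⟨h6, ?_⟩
    have h7 : C = 1 := by
      rw [← h6] at h1
      have : d * (C - 1) = 0 := by linarith
      rcases mul_eq_zero.1 this with h | h
      · linarith
      · linarith
    have h8 : C = Real.cos (((0 : ℤ) : ℝ) * (Real.pi / m)) := by rw [h7]; simp
    rw [hC, cos_grid hm] at h8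
    simpa using h8
  · rintro ⟨h1, h2⟩
    rw [← e_eq_iff hm] at h2
    unfold ln
    rw [h1, h2]

lemma isLine_ln (d : ℝ) (b : ℤ) : IsLine (ln m d b) := ⟨e m b, d, e_ne_zero b, rfl⟩

lemma rot_pt (r : ℝ) (a n : ℤ) : rot m n * pt m r a = pt m r (2 * n + a) := by
  unfold pt
  rw [rot_eq, e_add]
  ring

lemma conj_pt (r : ℝ) (a : ℤ) : conj (pt m r a) = pt m r (-a) := by
  unfold pt
  rw [map_mul, conj_e, Complex.conj_ofReal]

lemma rot_ln (d : ℝ) (b n : ℤ) : (fun z => rot m n * z) '' ln m d b = ln m d (2 * n + b) := by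
  ext z
  simp only [Set.mem_image, ln, Set.mem_ofPred_eq]
  constructor
  · rintro ⟨x, hx, rfl⟩
    rw [← hx, rot_eq, e_add, map_mul]
    congr 1
    have : e m (2 * n) * conj (e m (2 * n)) = 1 := by
      rw [conj_e, ← e_add, add_neg_cancel, e_zero]
    calc e m (2 * n) * x * (conj (e m (2 * n)) * conj (e m b))
        = (e m (2 * n) * conj (e m (2 * n))) * (x * conj (e m b)) := by ring
      _ = _ := by rw [this, one_mul]
  · intro hz
    refine ⟨e m (-(2 * n)) * z, ?_, ?_⟩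
    · rw [← hz, e_add, map_mul, conj_e (2 * n)]
      congr 1
      ring
    · rw [rot_eq, ← mul_assoc, ← e_add, add_neg_cancel, e_zero, one_mul]

lemma refl_ln (d : ℝ) (b n : ℤ) :
    (fun z => rot m n * (1 * conj z)) '' ln m d b = ln m d (2 * n + -b) := by
  have h1 : (fun z => rot m n * (1 * conj z)) '' ln m d b =
      (fun z => rot m n * z) '' ((fun z => conj z) '' ln m d b) := by
    rw [Set.image_image]
    simp
  have h2 : (fun z : ℂ => conj z) '' ln m d b = ln m d (-b) := by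
    ext z
    simp only [Set.mem_image, ln, Set.mem_ofPred_eq]
    constructor
    · rintro ⟨x, hx, rfl⟩
      rw [← hx, ← conj_e, ← map_mul, Complex.conj_re]
    · intro hz
      refine ⟨conj z, ?_, Complex.conj_conj z⟩
      rw [← hz, ← conj_e, ← map_mul, Complex.conj_re, Complex.conj_conj]
  rw [h1, h2, rot_ln]

lemma ncard_range_period {X : Type} (hm : 0 < m) (f : ℤ → X)
    (hf : ∀ a b, f a = f b ↔ (m : ℤ) ∣ a - b) : (Set.range f).ncard = m := by
  have h1 : Set.range f = (fun n : ℕ => f n) '' (Finset.range m : Set ℕ) := by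
    ext x
    simp only [Set.mem_range, Set.mem_image, Finset.coe_range, Set.mem_Iio]
    constructor
    · rintro ⟨a, rfl⟩
      have hm' : (0 : ℤ) < m := by exact_mod_cast hm
      refine ⟨(a % m).toNat, ?_, ?_⟩
      · have h1 := Int.emod_lt_of_pos a hm'
        have h2 := Int.emod_nonneg a hm'.ne'
        omega
      · rw [hf]
        have h2 := Int.emod_nonneg a hm'.ne'
        rw [Int.toNat_of_nonneg h2]
        refine ⟨-(a / m), ?_⟩
        have := Int.emod_add_mul_ediv a m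
        linarith
    · rintro ⟨n, _, rfl⟩
      exact ⟨n, rfl⟩
  rw [h1, Set.InjOn.ncard_image, Set.ncard_coe_finset, Finset.card_range]
  intro a ha b hb hab
  simp only [Finset.coe_range, Set.mem_Iio] at ha hb
  have h2 := (hf a b).1 hab
  obtain ⟨c, hc⟩ := h2
  have ha' : (a : ℤ) < m := by exact_mod_cast ha
  have hb' : (b : ℤ) < m := by exact_mod_cast hb
  have hc0 : c = 0 := by
    by_contra hne
    rcases lt_or_gt_of_ne hne with h | h
    · have : (m : ℤ) * c ≤ m * (-1) := by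
        apply mul_le_mul_of_nonneg_left <;> omega
      omega
    · have : (m : ℤ) * 1 ≤ m * c := by
        apply mul_le_mul_of_nonneg_left <;> omega
      omega
  rw [hc0] at hc
  omega

/-- The orbit of points at distance `r`. -/
def PS (m : ℕ) (r : ℝ) (α : ℤ) : Set ℂ := Set.range fun n : ℤ => pt m r (2 * n + α)

/-- The orbit of lines at distance `d`. -/
def LS (m : ℕ) (d : ℝ) (β : ℤ) : Set (Set ℂ) := Set.range fun n : ℤ => ln m d (2 * n + β)

lemma ncard_PS (hm : 0 < m) {r : ℝ} (hr : 0 < r) (α : ℤ) : (PS m r α).ncard = m := by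
  apply ncard_range_period hm
  intro a b
  rw [pt_eq_iff hm hr hr]
  constructor
  · rintro ⟨-, c, hc⟩
    exact ⟨c, by linarith⟩
  · rintro ⟨c, hc⟩
    exact ⟨rfl, c, by linarith⟩

lemma ncard_LS (hm : 0 < m) {d : ℝ} (hd : 0 < d) (β : ℤ) : (LS m d β).ncard = m := by
  apply ncard_range_period hm
  intro a b
  rw [ln_eq_iff hm hd hd]
  constructor
  · rintro ⟨-, c, hc⟩
    exact ⟨c, by linarith⟩
  · rintro ⟨c, hc⟩
    exact ⟨rfl, c, by linarith⟩

/-- The points of an orbit on a line. -/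
lemma points_on (hm : 0 < m) {r d : ℝ} (hr : 0 < r) {α β c b : ℤ}
    (hrd : r * Real.cos ((c : ℝ) * (Real.pi / m)) = d) (hpar : (2 : ℤ) ∣ α + c - β)
    (hb : (2 : ℤ) ∣ b - β) :
    {p ∈ PS m r α | p ∈ ln m d b} = {pt m r (b + c), pt m r (b - c)} := by
  ext p
  simp only [Set.mem_insert_iff, Set.mem_singleton_iff, PS, Set.mem_range]
  constructor
  · rintro ⟨⟨n, rfl⟩, h⟩
    rw [pt_mem_ln, ← hrd] at h
    have h1 := mul_left_cancel₀ hr.ne' h
    rw [cos_grid hm] at h1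
    rw [pt_eq_iff hm hr hr, pt_eq_iff hm hr hr]
    rcases h1 with h1 | h1
    · left
      refine ⟨rfl, ?_⟩
      convert h1 using 1
      ring
    · right
      refine ⟨rfl, ?_⟩
      convert h1 using 1
      ring
  · rintro (rfl | rfl)
    · refine ⟨?_, ?_⟩
      · have : (2 : ℤ) ∣ b + c - α := by omega
        obtain ⟨n, hn⟩ := this
        exact ⟨n, by congr 1; linarith⟩
      · rw [pt_mem_ln, ← hrd]
        congr 3
        push_cast
        ring
    · refine ⟨?_, ?_⟩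
      · have : (2 : ℤ) ∣ b - c - α := by omega
        obtain ⟨n, hn⟩ := this
        exact ⟨n, by congr 1; linarith⟩
      · rw [pt_mem_ln, ← hrd, ← Real.cos_neg]
        congr 2
        push_cast
        ring

lemma ncard_points_on (hm : 0 < m) {r d : ℝ} (hr : 0 < r) {α β c b : ℤ}
    (hrd : r * Real.cos ((c : ℝ) * (Real.pi / m)) = d) (hpar : (2 : ℤ) ∣ α + c - β)
    (hb : (2 : ℤ) ∣ b - β) (hc : 0 < c) (hc2 : 2 * c < m) :
    {p ∈ PS m r α | p ∈ ln m d b}.ncard = 2 := by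
  rw [points_on hm hr hrd hpar hb, Set.ncard_pair]
  rw [Ne, pt_eq_iff hm hr hr]
  rintro ⟨-, k, hk⟩
  have hk0 : k = 0 ∨ 1 ≤ k ∨ k ≤ -1 := by omega
  rcases hk0 with h | h | h
  · subst h; omega
  · nlinarith
  · nlinarith

/-- The lines of an orbit through a point. -/
lemma lines_through (hm : 0 < m) {r d : ℝ} (hr : 0 < r) (hd : 0 < d) {α β c a : ℤ}
    (hrd : r * Real.cos ((c : ℝ) * (Real.pi / m)) = d) (hpar : (2 : ℤ) ∣ α + c - β)
    (ha : (2 : ℤ) ∣ a - α) :
    {l ∈ LS m d β | pt m r a ∈ l} = {ln m d (a + c), ln m d (a - c)} := by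
  ext l
  simp only [Set.mem_insert_iff, Set.mem_singleton_iff, LS, Set.mem_range]
  constructor
  · rintro ⟨⟨n, rfl⟩, h⟩
    rw [pt_mem_ln, ← hrd] at h
    have h1 := mul_left_cancel₀ hr.ne' h
    rw [cos_grid hm] at h1
    rw [ln_eq_iff hm hd hd, ln_eq_iff hm hd hd]
    rcases h1 with h1 | h1
    · right
      refine ⟨rfl, ?_⟩
      obtain ⟨k, hk⟩ := h1
      exact ⟨-k, by linarith⟩
    · left
      refine ⟨rfl, ?_⟩
      obtain ⟨k, hk⟩ := h1
      exact ⟨-k, by linarith⟩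
  · rintro (rfl | rfl)
    · refine ⟨?_, ?_⟩
      · have : (2 : ℤ) ∣ a + c - β := by omega
        obtain ⟨n, hn⟩ := this
        exact ⟨n, by congr 1; linarith⟩
      · rw [pt_mem_ln, ← hrd, ← Real.cos_neg]
        congr 2
        push_cast
        ring
    · refine ⟨?_, ?_⟩
      · have : (2 : ℤ) ∣ a - c - β := by omega
        obtain ⟨n, hn⟩ := this
        exact ⟨n, by congr 1; linarith⟩
      · rw [pt_mem_ln, ← hrd]
        congr 3
        push_cast
        ring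

lemma ncard_lines_through (hm : 0 < m) {r d : ℝ} (hr : 0 < r) (hd : 0 < d) {α β c a : ℤ}
    (hrd : r * Real.cos ((c : ℝ) * (Real.pi / m)) = d) (hpar : (2 : ℤ) ∣ α + c - β)
    (ha : (2 : ℤ) ∣ a - α) (hc : 0 < c) (hc2 : 2 * c < m) :
    {l ∈ LS m d β | pt m r a ∈ l}.ncard = 2 := by
  rw [lines_through hm hr hd hrd hpar ha, Set.ncard_pair]
  rw [Ne, ln_eq_iff hm hd hd]
  rintro ⟨-, k, hk⟩
  have hk0 : k = 0 ∨ 1 ≤ k ∨ k ≤ -1 := by omega
  rcases hk0 with h | h | h
  · subst h; omega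
  · nlinarith
  · nlinarith

lemma span_points (hm : 0 < m) {r d : ℝ} (hr : 0 < r) {α β b : ℤ} {c : ℕ}
    (hrd : r * Real.cos (((c : ℤ) : ℝ) * (Real.pi / m)) = d) (hpar : (2 : ℤ) ∣ α + c - β)
    (hb : (2 : ℤ) ∣ b - β) :
    ∃ p ∈ PS m r α, rot m c * p ∈ PS m r α ∧ p ∈ ln m d b ∧ rot m c * p ∈ ln m d b := by
  have h := points_on hm hr hrd hpar hb
  have h1 : pt m r (b - c) ∈ {p ∈ PS m r α | p ∈ ln m d b} := by rw [h]; simp
  have h2 : pt m r (b + c) ∈ {p ∈ PS m r α | p ∈ ln m d b} := by rw [h]; simp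
  have h3 : rot m c * pt m r (b - c) = pt m r (b + c) := by
    rw [rot_pt]; congr 1; ring
  refine ⟨pt m r (b - c), h1.1, ?_, h1.2, ?_⟩
  · rw [h3]; exact h2.1
  · rw [h3]; exact h2.2

lemma orbit_PS (r : ℝ) (α : ℤ) :
    PS m r α = {q | ∃ f ∈ dihedral m 1, q = f (pt m r α)} := by
  ext q
  simp only [PS, Set.mem_range, dihedral, Set.mem_ofPred_eq]
  constructor
  · rintro ⟨n, rfl⟩
    exact ⟨fun z => rot m n * z, ⟨n, Or.inl rfl⟩, (rot_pt r α n).symm⟩
  · rintro ⟨f, ⟨a, rfl | rfl⟩, rfl⟩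
    · exact ⟨a, (rot_pt r α a).symm⟩
    · refine ⟨a - α, ?_⟩
      simp only [one_mul]
      rw [conj_pt, rot_pt]
      congr 1
      ring

lemma orbit_LS (d : ℝ) (β : ℤ) :
    LS m d β = {l | ∃ f ∈ dihedral m 1, l = f '' (ln m d β)} := by
  ext q
  simp only [LS, Set.mem_range, dihedral, Set.mem_ofPred_eq]
  constructor
  · rintro ⟨n, rfl⟩
    exact ⟨fun z => rot m n * z, ⟨n, Or.inl rfl⟩, (rot_ln d β n).symm⟩
  · rintro ⟨f, ⟨a, rfl | rfl⟩, rfl⟩
    · exact ⟨a, (rot_ln d β a).symm⟩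
    · refine ⟨a - β, ?_⟩
      rw [refl_ln]
      congr 1
      ring

lemma polygon_PS (r : ℝ) (hr : 0 < r) (α : ℤ) :
    ∃ p : ℂ, p ≠ 0 ∧ PS m r α = Set.range fun a : ℤ => rot m a * p := by
  refine ⟨pt m r α, ?_, ?_⟩
  · unfold pt
    exact mul_ne_zero (by exact_mod_cast hr.ne') (e_ne_zero α)
  · unfold PS
    congr 1
    ext n
    rw [rot_pt]

lemma disjoint_PS (hm : 0 < m) {r r' : ℝ} (hr : 0 < r) (hr' : 0 < r') (h : r ≠ r') (α α' : ℤ) :
    Disjoint (PS m r α) (PS m r' α') := by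
  rw [Set.disjoint_left]
  rintro _ ⟨n, rfl⟩ ⟨n', h'⟩
  have := (pt_eq_iff hm hr' hr _ _).1 h'
  exact h this.1.symm

lemma disjoint_LS (hm : 0 < m) {d d' : ℝ} (hd : 0 < d) (hd' : 0 < d') (h : d ≠ d') (β β' : ℤ) :
    Disjoint (LS m d β) (LS m d' β') := by
  rw [Set.disjoint_left]
  rintro _ ⟨n, rfl⟩ ⟨n', h'⟩
  have := (ln_eq_iff hm hd' hd _ _).1 h'
  exact h this.1.symm

end grid

lemma fin3 (i j : Fin 3) : i = j ∨ i = j + 1 ∨ i = j + 2 := by
  revert i j; decide

lemma ncard_iUnion_fin3 {X : Type} (m : ℕ) (hm : 0 < m) (A : Fin 3 → Set X)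
    (hA : ∀ i j, i ≠ j → Disjoint (A i) (A j)) (hc : ∀ i, (A i).ncard = m) :
    (⋃ i, A i).ncard = 3 * m := by
  have hf : ∀ i, (A i).Finite := fun i => Set.finite_of_ncard_pos (by rw [hc]; exact hm)
  have h1 : (⋃ i, A i) = (A 0 ∪ A 1) ∪ A 2 := by
    ext x
    simp only [Set.mem_iUnion, Set.mem_union, Fin.exists_fin_succ, Fin.exists_fin_zero]
    simp [or_assoc]
  rw [h1, Set.ncard_union_eq _ ((hf 0).union (hf 1)) (hf 2),
    Set.ncard_union_eq (hA 0 1 (by decide)) (hf 0) (hf 1), hc, hc, hc]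
  · ring
  · rw [Set.disjoint_union_left]
    exact ⟨hA 0 2 (by decide), hA 1 2 (by decide)⟩

lemma ncard_sep_union {X : Type} (A : Fin 3 → Set X) (j : Fin 3) (Q : X → Prop)
    (hA : ∀ i j, i ≠ j → Disjoint (A i) (A j))
    (h0 : {x ∈ A j | Q x}.ncard = 2) (h1 : {x ∈ A (j + 1) | Q x}.ncard = 2)
    (h2 : ∀ x ∈ A (j + 2), ¬ Q x) :
    {x ∈ ⋃ i, A i | Q x}.ncard = 4 := by
  have h : {x ∈ ⋃ i, A i | Q x} = {x ∈ A j | Q x} ∪ {x ∈ A (j + 1) | Q x} := by
    ext x
    simp only [Set.mem_sep_iff, Set.mem_iUnion, Set.mem_union]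
    constructor
    · rintro ⟨⟨i, hi⟩, hq⟩
      rcases fin3 i j with rfl | rfl | rfl
      · exact Or.inl ⟨hi, hq⟩
      · exact Or.inr ⟨hi, hq⟩
      · exact absurd hq (h2 x hi)
    · rintro (⟨hi, hq⟩ | ⟨hi, hq⟩)
      · exact ⟨⟨_, hi⟩, hq⟩
      · exact ⟨⟨_, hi⟩, hq⟩
  rw [h, Set.ncard_union_eq _ (Set.finite_of_ncard_pos (by omega))
    (Set.finite_of_ncard_pos (by omega)), h0, h1]
  apply Set.disjoint_of_subset (Set.sep_subset _ _) (Set.sep_subset _ _)
  apply hA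
  have h3 : ∀ j : Fin 3, j ≠ j + 1 := by decide
  exact h3 j

/-- The numerical data of a 3-astral configuration. -/
structure Data (m : ℕ) where
  r : Fin 3 → ℝ
  d : Fin 3 → ℝ
  α : Fin 3 → ℤ
  β : Fin 3 → ℤ
  s : Fin 3 → ℕ
  t : Fin 3 → ℕ
  hr : ∀ j, 0 < r j
  hd : ∀ j, 0 < d j
  hrinj : ∀ i j, i ≠ j → r i ≠ r j
  hdinj : ∀ i j, i ≠ j → d i ≠ d j
  own : ∀ j, r j * Real.cos (((s j : ℤ) : ℝ) * (Real.pi / m)) = d j
  next : ∀ j, r (j + 1) * Real.cos (((t j : ℤ) : ℝ) * (Real.pi / m)) = d j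
  third : ∀ j, ∀ x : ℤ, (2 : ℤ) ∣ x - (α (j + 2) - β j) →
    r (j + 2) * Real.cos ((x : ℝ) * (Real.pi / m)) ≠ d j
  par_own : ∀ j, (2 : ℤ) ∣ α j + (s j : ℤ) - β j
  par_next : ∀ j, (2 : ℤ) ∣ α (j + 1) + (t j : ℤ) - β j
  rs : ∀ j, 1 ≤ s j ∧ 2 * s j < m
  rt : ∀ j, 1 ≤ t j ∧ 2 * t j < m

namespace Data

variable {m : ℕ} (D : Data m)

/-- the points of orbit `j` -/
def P (j : Fin 3) : Set ℂ := PS m (D.r j) (D.α j)

/-- the lines of orbit `j` -/
def L (j : Fin 3) : Set (Set ℂ) := LS m (D.d j) (D.β j)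

include D in
lemma m_pos : 0 < m := by have := (D.rs 0).2; omega

lemma disjP (i j : Fin 3) (h : i ≠ j) : Disjoint (D.P i) (D.P j) :=
  disjoint_PS D.m_pos (D.hr i) (D.hr j) (D.hrinj i j h) _ _

lemma disjL (i j : Fin 3) (h : i ≠ j) : Disjoint (D.L i) (D.L j) :=
  disjoint_LS D.m_pos (D.hd i) (D.hd j) (D.hdinj i j h) _ _

lemma points_own (j : Fin 3) (l : Set ℂ) (hl : l ∈ D.L j) : {p ∈ D.P j | p ∈ l}.ncard = 2 := by
  obtain ⟨n, rfl⟩ := hl
  have h1 := (D.rs j).1
  have h2 := (D.rs j).2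
  exact ncard_points_on D.m_pos (D.hr j) (D.own j) (D.par_own j) ⟨n, by ring⟩ (by omega)
    (by omega)

lemma points_next (j : Fin 3) (l : Set ℂ) (hl : l ∈ D.L j) :
    {p ∈ D.P (j + 1) | p ∈ l}.ncard = 2 := by
  obtain ⟨n, rfl⟩ := hl
  have h1 := (D.rt j).1
  have h2 := (D.rt j).2
  exact ncard_points_on D.m_pos (D.hr (j + 1)) (D.next j) (D.par_next j) ⟨n, by ring⟩ (by omega)
    (by omega)

lemma third_not (j : Fin 3) (l : Set ℂ) (hl : l ∈ D.L j) (p : ℂ) (hp : p ∈ D.P (j + 2)) :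
    p ∉ l := by
  obtain ⟨n, rfl⟩ := hl
  obtain ⟨k, rfl⟩ := hp
  simp only
  rw [pt_mem_ln]
  apply D.third j
  exact ⟨k - n, by ring⟩

lemma lines_own (j : Fin 3) (p : ℂ) (hp : p ∈ D.P j) : {l ∈ D.L j | p ∈ l}.ncard = 2 := by
  obtain ⟨n, rfl⟩ := hp
  have h1 := (D.rs j).1
  have h2 := (D.rs j).2
  exact ncard_lines_through D.m_pos (D.hr j) (D.hd j) (D.own j) (D.par_own j) ⟨n, by ring⟩
    (by omega) (by omega)

lemma lines_prev (j : Fin 3) (p : ℂ) (hp : p ∈ D.P (j + 1)) :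
    {l ∈ D.L j | p ∈ l}.ncard = 2 := by
  obtain ⟨n, rfl⟩ := hp
  have h1 := (D.rt j).1
  have h2 := (D.rt j).2
  exact ncard_lines_through D.m_pos (D.hr (j + 1)) (D.hd j) (D.next j) (D.par_next j)
    ⟨n, by ring⟩ (by omega) (by omega)

theorem isThreeAstral : IsThreeAstral m D.P D.L D.s D.t where
  config :=
    { isLine := by
        intro l hl
        obtain ⟨j, hj⟩ := Set.mem_iUnion.1 hl
        obtain ⟨n, rfl⟩ := hj
        exact isLine_ln _ _
      card_points := ncard_iUnion_fin3 m D.m_pos _ D.disjP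
        fun j => ncard_PS D.m_pos (D.hr j) _
      card_lines := ncard_iUnion_fin3 m D.m_pos _ D.disjL
        fun j => ncard_LS D.m_pos (D.hd j) _
      four_points := by
        intro l hl
        obtain ⟨j, hj⟩ := Set.mem_iUnion.1 hl
        exact ncard_sep_union D.P j _ D.disjP (D.points_own j l hj) (D.points_next j l hj)
          (D.third_not j l hj)
      four_lines := by
        intro p hp
        obtain ⟨j, hj⟩ := Set.mem_iUnion.1 hp
        have e1 : ∀ j : Fin 3, j = j + 2 + 1 := by decide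
        have e2 : ∀ j : Fin 3, j = (j + 2 + 2) + 2 := by decide
        have e3 : ∀ j : Fin 3, j + 2 + 1 = j := by decide
        have h1 : {l ∈ D.L (j + 2) | p ∈ l}.ncard = 2 := by
          apply D.lines_prev
          rw [← e1]
          exact hj
        have h2 : {l ∈ D.L (j + 2 + 1) | p ∈ l}.ncard = 2 := by
          rw [← e1]
          exact D.lines_own j p hj
        refine ncard_sep_union D.L (j + 2) _ D.disjL h1 h2 ?_
        intro l hl
        apply D.third_not (j + 2 + 2) l hl p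
        rw [← e2]
        exact hj }
  symm := ⟨1, by simp, fun j => ⟨_, orbit_PS _ _⟩, fun j => ⟨_, orbit_LS _ _⟩⟩
  card_points := fun j => ncard_PS D.m_pos (D.hr j) _
  card_lines := fun j => ncard_LS D.m_pos (D.hd j) _
  polygon := fun j => polygon_PS _ (D.hr j) _
  two_points_own := D.points_own
  two_points_next := D.points_next
  two_lines_own := D.lines_own
  two_lines_prev := D.lines_prev
  span_own := by
    rintro j _ ⟨n, rfl⟩
    exact span_points D.m_pos (D.hr j) (D.own j) (D.par_own j) ⟨n, by ring⟩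
  span_next := by
    rintro j _ ⟨n, rfl⟩
    exact span_points D.m_pos (D.hr (j + 1)) (D.next j) (D.par_next j) ⟨n, by ring⟩
  range_own := D.rs
  range_next := D.rt

end Data

/-! ## Connectedness -/

lemma inc_adj {P : Set ℂ} {L : Set (Set ℂ)} (p : P) (l : L) (h : (p : ℂ) ∈ (l : Set ℂ)) :
    (incGraph P L).Adj (Sum.inl p) (Sum.inr l) := by
  unfold incGraph
  rw [SimpleGraph.fromRel_adj]
  exact ⟨by simp, Or.inl h⟩

lemma connected_of {m : ℕ} {P : Fin 3 → Set ℂ} {L : Fin 3 → Set (Set ℂ)} {s t : Fin 3 → ℕ}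
    (h : IsThreeAstral m P L s t) (p0 : ℂ) (hp0 : p0 ∈ P 0)
    (hP : ∀ p (hp : p ∈ P 0), (incGraph (⋃ j, P j) (⋃ j, L j)).Reachable
      (Sum.inl ⟨p0, Set.mem_iUnion.2 ⟨0, hp0⟩⟩) (Sum.inl ⟨p, Set.mem_iUnion.2 ⟨0, hp⟩⟩)) :
    (incGraph (⋃ j, P j) (⋃ j, L j)).Connected := by
  set G := incGraph (⋃ j, P j) (⋃ j, L j) with hG
  set v0 : (⋃ j, P j : Set ℂ) ⊕ (⋃ j, L j : Set (Set ℂ)) :=
    Sum.inl ⟨p0, Set.mem_iUnion.2 ⟨0, hp0⟩⟩ with hv0
  have hL0 : ∀ l (hl : l ∈ L 0), G.Reachable v0 (Sum.inr ⟨l, Set.mem_iUnion.2 ⟨0, hl⟩⟩) := by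
    intro l hl
    obtain ⟨p, hp, -, hpl, -⟩ := h.span_own 0 l hl
    exact (hP p hp).trans (inc_adj _ _ hpl).reachable
  have hL2 : ∀ l (hl : l ∈ L 2), G.Reachable v0 (Sum.inr ⟨l, Set.mem_iUnion.2 ⟨2, hl⟩⟩) := by
    intro l hl
    obtain ⟨p, hp, -, hpl, -⟩ := h.span_next 2 l hl
    exact (hP p hp).trans (inc_adj _ _ hpl).reachable
  have hP1 : ∀ p (hp : p ∈ P 1), G.Reachable v0 (Sum.inl ⟨p, Set.mem_iUnion.2 ⟨1, hp⟩⟩) := by
    intro p hp
    have h1 := h.two_lines_prev 0 p hp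
    obtain ⟨l, hl⟩ := Set.nonempty_of_ncard_ne_zero (by rw [h1]; norm_num)
    exact (hL0 l hl.1).trans (inc_adj ⟨p, Set.mem_iUnion.2 ⟨1, hp⟩⟩ _ hl.2).symm.reachable
  have hP2 : ∀ p (hp : p ∈ P 2), G.Reachable v0 (Sum.inl ⟨p, Set.mem_iUnion.2 ⟨2, hp⟩⟩) := by
    intro p hp
    have h1 := h.two_lines_own 2 p hp
    obtain ⟨l, hl⟩ := Set.nonempty_of_ncard_ne_zero (by rw [h1]; norm_num)
    exact (hL2 l hl.1).trans (inc_adj ⟨p, Set.mem_iUnion.2 ⟨2, hp⟩⟩ _ hl.2).symm.reachable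
  have hL1 : ∀ l (hl : l ∈ L 1), G.Reachable v0 (Sum.inr ⟨l, Set.mem_iUnion.2 ⟨1, hl⟩⟩) := by
    intro l hl
    obtain ⟨p, hp, -, hpl, -⟩ := h.span_own 1 l hl
    exact (hP1 p hp).trans (inc_adj _ _ hpl).reachable
  have key : ∀ x, G.Reachable v0 x := by
    rintro (⟨p, hp⟩ | ⟨l, hl⟩)
    · obtain ⟨j, hj⟩ := Set.mem_iUnion.1 hp
      fin_cases j
      · exact hP p hj
      · exact hP1 p hj
      · exact hP2 p hj
    · obtain ⟨j, hj⟩ := Set.mem_iUnion.1 hl
      fin_cases j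
      · exact hL0 l hj
      · exact hL1 l hj
      · exact hL2 l hj
  have : Nonempty ((⋃ j, P j : Set ℂ) ⊕ (⋃ j, L j : Set (Set ℂ))) := ⟨v0⟩
  exact ⟨fun x y => (key x).symm.trans (key y)⟩

lemma Data.connected {m : ℕ} (D : Data m) (hs : D.s 0 = 1) :
    (incGraph (⋃ j, D.P j) (⋃ j, D.L j)).Connected := by
  have hmem : ∀ n : ℤ, pt m (D.r 0) (2 * n + D.α 0) ∈ D.P 0 := fun n => ⟨n, rfl⟩
  have step : ∀ n : ℤ, (incGraph (⋃ j, D.P j) (⋃ j, D.L j)).Reachable
      (Sum.inl ⟨_, Set.mem_iUnion.2 ⟨0, hmem n⟩⟩)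
      (Sum.inl ⟨_, Set.mem_iUnion.2 ⟨0, hmem (n + 1)⟩⟩) := by
    intro n
    have hpar := D.par_own 0
    have hown := D.own 0
    rw [hs] at hpar hown
    have hl : ln m (D.d 0) (2 * n + D.α 0 + 1) ∈ D.L 0 := by
      obtain ⟨k, hk⟩ := hpar
      refine ⟨n + k, ?_⟩
      simp only
      congr 1
      push_cast at hk
      linarith
    have h1 : pt m (D.r 0) (2 * n + D.α 0) ∈ ln m (D.d 0) (2 * n + D.α 0 + 1) := by
      rw [pt_mem_ln, ← hown, ← Real.cos_neg]
      congr 2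
      push_cast
      ring
    have h2 : pt m (D.r 0) (2 * (n + 1) + D.α 0) ∈ ln m (D.d 0) (2 * n + D.α 0 + 1) := by
      rw [pt_mem_ln, ← hown]
      congr 3
      push_cast
      ring
    exact (inc_adj ⟨_, Set.mem_iUnion.2 ⟨0, hmem n⟩⟩ ⟨_, Set.mem_iUnion.2 ⟨0, hl⟩⟩
      h1).reachable.trans
      (inc_adj ⟨_, Set.mem_iUnion.2 ⟨0, hmem (n + 1)⟩⟩ ⟨_, Set.mem_iUnion.2 ⟨0, hl⟩⟩
      h2).symm.reachable
  refine connected_of D.isThreeAstral _ (hmem 0) ?_
  rintro p ⟨n, rfl⟩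
  induction n using Int.induction_on with
  | zero => exact SimpleGraph.Reachable.refl _
  | succ i ih => exact ih.trans (step _)
  | pred i ih =>
    refine ih.trans ?_
    have h1 := step (-(i : ℤ) - 1)
    have h2 : -(i : ℤ) - 1 + 1 = -i := by ring
    have h3 : (⟨pt m (D.r 0) (2 * (-(i : ℤ) - 1 + 1) + D.α 0),
        Set.mem_iUnion.2 ⟨0, hmem (-(i : ℤ) - 1 + 1)⟩⟩ : (⋃ j, D.P j : Set ℂ)) =
        ⟨pt m (D.r 0) (2 * (-(i : ℤ)) + D.α 0), Set.mem_iUnion.2 ⟨0, hmem (-(i : ℤ))⟩⟩ := by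
      apply Subtype.ext
      simp only [h2]
    rw [h3] at h1
    exact h1.symm



/-! ## The numbers -/

section galois

variable {m : ℕ}

lemma rot_add (a b : ℤ) : rot m (a + b) = rot m a * rot m b := by
  rw [rot_eq, rot_eq, rot_eq, mul_add, e_add]

lemma rot_nat (a : ℕ) : rot m a = rot m 1 ^ a := by
  induction a with
  | zero => simp [rot]
  | succ n ih => rw [Nat.cast_succ, rot_add, ih, pow_succ]

lemma rot_eq_iff (hm : 0 < m) (a b : ℤ) : rot m a = rot m b ↔ (m : ℤ) ∣ a - b := by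
  rw [rot_eq, rot_eq, e_eq_iff hm, ← mul_sub]
  exact mul_dvd_mul_iff_left (by norm_num)

lemma rot_primitive (hm : 0 < m) : IsPrimitiveRoot (rot m 1) m := by
  have h := Complex.isPrimitiveRoot_exp m hm.ne'
  convert h using 1
  unfold rot
  congr 1
  push_cast
  ring

/-- `2 cos (2 π a / m)` -/
noncomputable def cc (m : ℕ) (a : ℤ) : ℝ := 2 * Real.cos (2 * Real.pi * a / m)

lemma cc_eq (a : ℤ) : (cc m a : ℂ) = rot m a + rot m (-a) := by
  have h1 : rot m (-a) = conj (rot m a) := by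
    rw [rot_eq, rot_eq, conj_e]; congr 1; ring
  rw [h1, Complex.add_conj]
  unfold rot cc
  rw [Complex.exp_ofReal_mul_I_re]

lemma galois (hm : 0 < m) (c : ℕ) (hc : Nat.Coprime c m) {ι : Type} [Fintype ι] (k a : ι → ℤ)
    (h : ∑ i, (k i : ℂ) * rot m (a i) = 0) : ∑ i, (k i : ℂ) * rot m (c * a i) = 0 := by
  have hm' : (0 : ℤ) < m := by exact_mod_cast hm
  set ζ := rot m 1 with hζ
  have hprim := rot_primitive hm
  let b : ι → ℕ := fun i => (a i % m).toNat
  have hb : ∀ i, ((b i : ℕ) : ℤ) = a i % m := fun i =>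
    Int.toNat_of_nonneg (Int.emod_nonneg _ hm'.ne')
  let p : Polynomial ℤ := ∑ i, Polynomial.C (k i) * Polynomial.X ^ (b i)
  have hp : Polynomial.aeval ζ p = 0 := by
    simp only [p, map_sum, map_mul, map_pow, Polynomial.aeval_X, Polynomial.aeval_C]
    rw [← h]
    apply Finset.sum_congr rfl
    intro i _
    rw [hζ, ← rot_nat, hb]
    have : rot m (a i % m) = rot m (a i) := by
      rw [rot_eq_iff hm]
      exact ⟨-(a i / m), by have := Int.emod_add_mul_ediv (a i) m; linarith⟩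
    rw [this]
    simp
  have hint : IsIntegral ℤ ζ := hprim.isIntegral hm
  have hdvd : minpoly ℤ ζ ∣ p := minpoly.isIntegrallyClosed_dvd hint hp
  rw [hprim.minpoly_eq_pow_coprime hc] at hdvd
  obtain ⟨q, hq⟩ := hdvd
  have hp2 : Polynomial.aeval (ζ ^ c) p = 0 := by
    rw [hq, map_mul, minpoly.aeval, zero_mul]
  simp only [p, map_sum, map_mul, map_pow, Polynomial.aeval_X, Polynomial.aeval_C] at hp2
  rw [← hp2]
  apply Finset.sum_congr rfl
  intro i _
  rw [hζ, ← pow_mul, ← rot_nat]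
  have : rot m (c * a i) = rot m ((c * b i : ℕ) : ℤ) := by
    rw [rot_eq_iff hm]
    refine ⟨c * (a i / m), ?_⟩
    push_cast
    rw [hb]
    have := Int.emod_add_mul_ediv (a i) m
    linear_combination (c : ℤ) * this.symm
  rw [this]
  simp

lemma galois_cos (hm : 0 < m) (c : ℕ) (hc : Nat.Coprime c m) {ι : Type} [Fintype ι] (k a : ι → ℤ)
    (K : ℤ) (h : ∑ i, (k i : ℝ) * cc m (a i) = K) : ∑ i, (k i : ℝ) * cc m (c * a i) = K := by
  have h1 := galois hm c hc (ι := (ι ⊕ ι) ⊕ Unit)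
    (Sum.elim (Sum.elim k k) (fun _ => -K)) (Sum.elim (Sum.elim a (fun i => - a i)) (fun _ => 0)) ?_
  · simp only [Fintype.sum_sum_type, Sum.elim_inl, Sum.elim_inr, Finset.univ_unique,
      Finset.sum_singleton] at h1
    rw [← Finset.sum_add_distrib] at h1
    have h2 : (∑ i, (k i : ℂ) * (cc m (c * a i) : ℂ)) = K := by
      rw [← sub_eq_zero, ← h1]
      rw [sub_eq_add_neg]
      congr 1
      · apply Finset.sum_congr rfl
        intro i _
        rw [cc_eq]
        have : (c : ℤ) * -a i = -(c * a i) := by ring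
        rw [this]
        ring
      · simp [rot]
    exact_mod_cast h2
  · simp only [Fintype.sum_sum_type, Sum.elim_inl, Sum.elim_inr, Finset.univ_unique,
      Finset.sum_singleton]
    rw [← Finset.sum_add_distrib]
    have h2 : (∑ i, (k i : ℂ) * (cc m (a i) : ℂ)) = K := by exact_mod_cast h
    have h3 : (∑ i, ((k i : ℂ) * rot m (a i) + (k i : ℂ) * rot m (- a i))) = K := by
      rw [← h2]
      apply Finset.sum_congr rfl
      intro i _
      rw [cc_eq]
      ring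
    rw [h3]
    simp [rot]

lemma cc_mul (a b : ℤ) : cc m a * cc m b = cc m (a + b) + cc m (a - b) := by
  unfold cc
  have h1 : 2 * Real.pi * ((a + b : ℤ) : ℝ) / m = 2 * Real.pi * a / m + 2 * Real.pi * b / m := by
    push_cast; ring
  have h2 : 2 * Real.pi * ((a - b : ℤ) : ℝ) / m = 2 * Real.pi * a / m - 2 * Real.pi * b / m := by
    push_cast; ring
  rw [h1, h2, Real.cos_add, Real.cos_sub]
  ring

lemma cc_le (a : ℤ) : |cc m a| ≤ 2 := by
  unfold cc
  rw [abs_mul]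
  have := Real.abs_cos_le_one (2 * Real.pi * a / m)
  rw [abs_of_pos (by norm_num : (0 : ℝ) < 2)]
  linarith

lemma four_cos (e : ℤ) : 4 * (Real.cos (Real.pi / m) * Real.cos (((2 * e - 1 : ℤ) : ℝ) *
    (Real.pi / m))) = cc m e + cc m (e - 1) := by
  unfold cc
  have h1 : 2 * Real.pi * (e : ℝ) / m =
      (((2 * e - 1 : ℤ) : ℝ) * (Real.pi / m)) + Real.pi / m := by
    push_cast; ring
  have h2 : 2 * Real.pi * ((e - 1 : ℤ) : ℝ) / m =
      (((2 * e - 1 : ℤ) : ℝ) * (Real.pi / m)) - Real.pi / m := by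
    push_cast; ring
  rw [h1, h2, Real.cos_add, Real.cos_sub]
  ring

lemma close_values (hm : 60 ≤ m) (a b : ℤ) (h : a = b + 1 ∨ a = b - 1) (ha : cc m a = 1)
    (hb : cc m b = 0) : False := by
  have hm' : (60 : ℝ) ≤ m := by exact_mod_cast hm
  have hpi := Real.pi_lt_d2
  have hpi0 := Real.pi_pos
  unfold cc at ha hb
  have hB : Real.cos (2 * Real.pi * b / m) = 0 := by linarith
  have hA : Real.cos (2 * Real.pi * a / m) = 1 / 2 := by linarith
  have hsB : Real.sin (2 * Real.pi * b / m) ^ 2 = 1 := by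
    have := Real.sin_sq_add_cos_sq (2 * Real.pi * b / m)
    rw [hB] at this
    linarith
  set δ : ℝ := 2 * Real.pi / m with hδ
  have hδ1 : 0 < δ := by positivity
  have hδ2 : δ < 1 / 4 := by
    rw [hδ, div_lt_iff₀ (by linarith)]
    linarith
  have hs : Real.sin δ ^ 2 < 1 / 4 := by
    have h1 : |Real.sin δ| ≤ |δ| := Real.abs_sin_le_abs
    rw [← sq_abs]
    have h2 : |Real.sin δ| < 1 / 4 := lt_of_le_of_lt h1 (by rw [abs_of_pos hδ1]; exact hδ2)
    have h3 := abs_nonneg (Real.sin δ)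
    nlinarith
  have key : (1 / 2 : ℝ) ^ 2 = Real.sin δ ^ 2 := by
    rcases h with h | h
    · have h1 : 2 * Real.pi * (a : ℝ) / m = 2 * Real.pi * b / m + δ := by
        rw [h, hδ]; push_cast; ring
      rw [h1, Real.cos_add, hB] at hA
      rw [← hA]
      have : (0 * Real.cos δ - Real.sin (2 * Real.pi * b / m) * Real.sin δ) ^ 2 =
        Real.sin (2 * Real.pi * b / m) ^ 2 * Real.sin δ ^ 2 := by ring
      rw [this, hsB]
      ring
    · have h1 : 2 * Real.pi * (a : ℝ) / m = 2 * Real.pi * b / m - δ := by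
        rw [h, hδ]; push_cast; ring
      rw [h1, Real.cos_sub, hB] at hA
      rw [← hA]
      have : (0 * Real.cos δ + Real.sin (2 * Real.pi * b / m) * Real.sin δ) ^ 2 =
        Real.sin (2 * Real.pi * b / m) ^ 2 * Real.sin δ ^ 2 := by ring
      rw [this, hsB]
      ring
  linarith

end galois

section numbers

variable {k : ℕ}

lemma coprime_half (hk : 2 ∣ k) : Nat.Coprime (1 + 15 * k) (30 * k) := by
  have h1 : Nat.Coprime (1 + 15 * k) (15 * k) := by simp
  have h2 : Nat.Coprime (1 + 15 * k) 2 := by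
    rw [Nat.coprime_comm, Nat.prime_two.coprime_iff_not_dvd]
    omega
  have h3 : 30 * k = 2 * (15 * k) := by ring
  rw [h3]
  exact Nat.Coprime.mul_right h2 h1

lemma cc_half_even (hk0 : 0 < k) (a : ℤ) (ha : 2 ∣ a) :
    cc (30 * k) (((1 + 15 * k : ℕ) : ℤ) * a) = cc (30 * k) a := by
  obtain ⟨f, rfl⟩ := ha
  have hk' : (k : ℝ) ≠ 0 := by exact_mod_cast hk0.ne'
  unfold cc
  congr 1
  have : 2 * Real.pi * ((((1 + 15 * k : ℕ) : ℤ) * (2 * f) : ℤ) : ℝ) / ((30 * k : ℕ) : ℝ) =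
      2 * Real.pi * ((2 * f : ℤ) : ℝ) / ((30 * k : ℕ) : ℝ) + f * (2 * Real.pi) := by
    push_cast
    field_simp
    ring
  rw [this, Real.cos_add_int_mul_two_pi]

lemma cc_half_odd (hk0 : 0 < k) (a : ℤ) (ha : ¬ 2 ∣ a) :
    cc (30 * k) (((1 + 15 * k : ℕ) : ℤ) * a) = - cc (30 * k) a := by
  obtain ⟨f, rfl⟩ : ∃ f, a = 2 * f + 1 := ⟨a / 2, by omega⟩
  have hk' : (k : ℝ) ≠ 0 := by exact_mod_cast hk0.ne'
  unfold cc
  rw [← mul_neg, ← Real.cos_add_pi]
  congr 1
  have : 2 * Real.pi * ((((1 + 15 * k : ℕ) : ℤ) * (2 * f + 1) : ℤ) : ℝ) / ((30 * k : ℕ) : ℝ) =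
      (2 * Real.pi * ((2 * f + 1 : ℤ) : ℝ) / ((30 * k : ℕ) : ℝ) + Real.pi) + f * (2 * Real.pi) := by
    push_cast
    field_simp
    ring
  rw [this, Real.cos_add_int_mul_two_pi]

lemma case_two (hk : 2 ∣ k) (hk0 : 0 < k) (e : ℤ) :
    cc (30 * k) e + cc (30 * k) (e - 1) ≠ 1 := by
  intro h
  have hm : 60 ≤ 30 * k := by omega
  have h1 := galois_cos (m := 30 * k) (by omega) (1 + 15 * k) (coprime_half hk) (ι := Fin 2)
    ![1, 1] ![e, e - 1] 1 (by simpa using h)
  simp only [Fin.sum_univ_two, Matrix.cons_val_zero, Matrix.cons_val_one, Int.cast_one,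
    one_mul] at h1
  by_cases he : (2 : ℤ) ∣ e
  · rw [cc_half_even hk0 e he, cc_half_odd hk0 (e - 1) (by omega)] at h1
    exact close_values hm e (e - 1) (Or.inl (by ring)) (by linarith) (by linarith)
  · rw [cc_half_odd hk0 e he, cc_half_even hk0 (e - 1) (by omega)] at h1
    exact close_values hm (e - 1) e (Or.inr (by ring)) (by linarith) (by linarith)

lemma cos_two_pi_div_five : Real.cos (2 * Real.pi / 5) = (√5 - 1) / 4 := by
  have h : 2 * Real.pi / 5 = 2 * (Real.pi / 5) := by ring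
  rw [h, Real.cos_two_mul, Real.cos_pi_div_five]
  have h5 : √5 ^ 2 = 5 := Real.sq_sqrt (by norm_num)
  nlinarith

lemma case_zero (h7 : Nat.Coprime 7 (30 * k)) (hk0 : 2 ≤ k) (e : ℤ) :
    2 * Real.cos (Real.pi / 5) * (cc (30 * k) e + cc (30 * k) (e - 1)) ≠ 2 + cc (30 * k) 1 := by
  intro h
  have hk' : (k : ℝ) ≠ 0 := by
    have : k ≠ 0 := by omega
    exact_mod_cast this
  have h0 : 2 * Real.cos (Real.pi / 5) = cc (30 * k) (3 * k) := by
    unfold cc
    congr 2
    push_cast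
    field_simp
    ring
  rw [h0, mul_add, cc_mul, cc_mul] at h
  have h1 := galois_cos (m := 30 * k) (by omega) 7 h7 (ι := Fin 5)
    ![1, 1, 1, 1, -1] ![3 * k + e, 3 * k - e, 3 * k + (e - 1), 3 * k - (e - 1), 1] 2
    (by simp [Fin.sum_univ_succ]; linarith)
  simp [Fin.sum_univ_succ] at h1
  have e1 : (7 : ℤ) * (3 * k + e) = 21 * k + 7 * e := by ring
  have e2 : (7 : ℤ) * (3 * k - e) = 21 * k - 7 * e := by ring
  have e3 : (7 : ℤ) * (3 * k + (e - 1)) = 21 * k + 7 * (e - 1) := by ring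
  have e4 : (7 : ℤ) * (3 * k - (e - 1)) = 21 * k - 7 * (e - 1) := by ring
  rw [e1, e2, e3, e4] at h1
  have h2 : cc (30 * k) (21 * k) * (cc (30 * k) (7 * e) + cc (30 * k) (7 * (e - 1))) =
      2 + cc (30 * k) 7 := by
    rw [mul_add, cc_mul, cc_mul]
    linarith
  have h3 : cc (30 * k) (21 * k) = - ((√5 - 1) / 2) := by
    have : cc (30 * k) (21 * k) = - (2 * Real.cos (2 * Real.pi / 5)) := by
      unfold cc
      rw [← mul_neg, ← Real.cos_add_pi]
      congr 2
      push_cast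
      field_simp
      ring
    rw [this, cos_two_pi_div_five]
    ring
  have h4 := cc_le (m := 30 * k) (7 * e)
  have h5 := cc_le (m := 30 * k) (7 * (e - 1))
  rw [abs_le] at h4 h5
  have h6 : √5 < 2.24 := by
    rw [Real.sqrt_lt' (by norm_num)]; norm_num
  have h7' : (1 : ℝ) < √5 := by
    rw [Real.lt_sqrt (by norm_num)]; norm_num
  have hm' : (60 : ℝ) ≤ ((30 * k : ℕ) : ℝ) := by
    have : 60 ≤ 30 * k := by omega
    exact_mod_cast this
  have h8 : (3.4 : ℝ) ≤ 2 + cc (30 * k) 7 := by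
    unfold cc
    have h9 := Real.one_sub_sq_div_two_le_cos (x := 2 * Real.pi * (7 : ℤ) / (30 * k : ℕ))
    have hpi := Real.pi_lt_d2
    have hpi0 := Real.pi_pos
    have h10 : 2 * Real.pi * ((7 : ℤ) : ℝ) / ((30 * k : ℕ) : ℝ) ≤ 0.735 := by
      rw [div_le_iff₀ (by linarith)]
      push_cast at hm' ⊢
      nlinarith
    have h11 : 0 ≤ 2 * Real.pi * ((7 : ℤ) : ℝ) / ((30 * k : ℕ) : ℝ) := by positivity
    nlinarith
  rw [h3] at h2
  nlinarith

lemma cos_small (hk : 2 ≤ k) : 0.9 < Real.cos (Real.pi / ((30 * k : ℕ) : ℝ)) := by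
  have hm' : (60 : ℝ) ≤ ((30 * k : ℕ) : ℝ) := by
    have : 60 ≤ 30 * k := by omega
    exact_mod_cast this
  have h9 := Real.one_sub_sq_div_two_le_cos (x := Real.pi / ((30 * k : ℕ) : ℝ))
  have hpi := Real.pi_lt_d2
  have hpi0 := Real.pi_pos
  have h10 : Real.pi / ((30 * k : ℕ) : ℝ) ≤ 0.1 := by
    rw [div_le_iff₀ (by linarith)]
    linarith
  have h11 : 0 ≤ Real.pi / ((30 * k : ℕ) : ℝ) := by positivity
  nlinarith

lemma cos_fifth : 0.8 < Real.cos (Real.pi / 5) ∧ Real.cos (Real.pi / 5) < 0.85 := by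
  rw [Real.cos_pi_div_five]
  have h6 : √5 < 2.24 := by
    rw [Real.sqrt_lt' (by norm_num)]; norm_num
  have h7 : (2.21 : ℝ) < √5 := by
    rw [Real.lt_sqrt (by norm_num)]; norm_num
  constructor <;> linarith

lemma ang (hk : 0 < k) (c : ℕ) :
    ((((c * k : ℕ) : ℤ)) : ℝ) * (Real.pi / ((30 * k : ℕ) : ℝ)) = c * Real.pi / 30 := by
  have hk' : (k : ℝ) ≠ 0 := by exact_mod_cast hk.ne'
  push_cast
  field_simp

lemma ang_six (hk : 0 < k) :
    Real.cos (((((6 * k : ℕ) : ℤ)) : ℝ) * (Real.pi / ((30 * k : ℕ) : ℝ))) =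
      Real.cos (Real.pi / 5) := by
  rw [ang hk]; congr 1; push_cast; ring

lemma ang_ten (hk : 0 < k) :
    Real.cos (((((10 * k : ℕ) : ℤ)) : ℝ) * (Real.pi / ((30 * k : ℕ) : ℝ))) = 1 / 2 := by
  rw [ang hk, ← Real.cos_pi_div_three]; congr 1; push_cast; ring

lemma ang_twelve (hk : 0 < k) :
    2 * Real.cos (Real.pi / 5) *
      Real.cos (((((12 * k : ℕ) : ℤ)) : ℝ) * (Real.pi / ((30 * k : ℕ) : ℝ))) = 1 / 2 := by
  rw [ang hk]
  have : ((12 : ℕ) : ℝ) * Real.pi / 30 = 2 * Real.pi / 5 := by push_cast; ring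
  rw [this, cos_two_pi_div_five, Real.cos_pi_div_five]
  have h5 : √5 ^ 2 = 5 := Real.sq_sqrt (by norm_num)
  nlinarith

/-- The data of the configuration with symbol `(30k)#(1,10k;6k,1;12k,10k)`. -/
noncomputable def theData (k : ℕ) (hk : 2 ∣ k) (hk0 : 0 < k) (h7 : Nat.Coprime 7 (30 * k)) :
    Data (30 * k) where
  r := ![1, 2 * Real.cos (Real.pi / (30 * k : ℕ)), 2 * Real.cos (Real.pi / 5)]
  d := ![Real.cos (Real.pi / (30 * k : ℕ)),
    2 * Real.cos (Real.pi / (30 * k : ℕ)) * Real.cos (Real.pi / 5), 1 / 2]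
  α := ![0, 1, 0]
  β := ![1, 1, 0]
  s := ![1, 6 * k, 12 * k]
  t := ![10 * k, 1, 10 * k]
  hr := by
    have h1 := cos_small (k := k) (by omega)
    have h2 := cos_fifth
    intro j
    fin_cases j
    · exact one_pos
    · show 0 < 2 * Real.cos (Real.pi / (30 * k : ℕ))
      linarith
    · show 0 < 2 * Real.cos (Real.pi / 5)
      linarith
  hd := by
    have h1 := cos_small (k := k) (by omega)
    have h2 := cos_fifth
    intro j
    fin_cases j
    · show 0 < Real.cos (Real.pi / (30 * k : ℕ))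
      linarith
    · show 0 < 2 * Real.cos (Real.pi / (30 * k : ℕ)) * Real.cos (Real.pi / 5)
      nlinarith
    · show (0 : ℝ) < 1 / 2
      norm_num
  hrinj := by
    have h1 := cos_small (k := k) (by omega)
    have h2 := cos_fifth
    have e01 : (1 : ℝ) ≠ 2 * Real.cos (Real.pi / (30 * k : ℕ)) := by
      intro h; linarith
    have e02 : (1 : ℝ) ≠ 2 * Real.cos (Real.pi / 5) := by
      intro h; linarith
    have e12 : 2 * Real.cos (Real.pi / (30 * k : ℕ)) ≠ 2 * Real.cos (Real.pi / 5) := by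
      intro h; linarith
    intro i j hij
    fin_cases i <;> fin_cases j
    · exact absurd rfl hij
    · exact e01
    · exact e02
    · exact e01.symm
    · exact absurd rfl hij
    · exact e12
    · exact e02.symm
    · exact e12.symm
    · exact absurd rfl hij
  hdinj := by
    have h1 := cos_small (k := k) (by omega)
    have h2 := cos_fifth
    have h3 := Real.cos_le_one (Real.pi / (30 * k : ℕ))
    have h4 : 1.4 < 2 * Real.cos (Real.pi / (30 * k : ℕ)) * Real.cos (Real.pi / 5) := by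
      nlinarith
    have e01 : Real.cos (Real.pi / (30 * k : ℕ)) ≠
        2 * Real.cos (Real.pi / (30 * k : ℕ)) * Real.cos (Real.pi / 5) := by
      intro h; linarith
    have e02 : Real.cos (Real.pi / (30 * k : ℕ)) ≠ 1 / 2 := by
      intro h; linarith
    have e12 : 2 * Real.cos (Real.pi / (30 * k : ℕ)) * Real.cos (Real.pi / 5) ≠ 1 / 2 := by
      intro h; linarith
    intro i j hij
    fin_cases i <;> fin_cases j
    · exact absurd rfl hij
    · exact e01
    · exact e02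
    · exact e01.symm
    · exact absurd rfl hij
    · exact e12
    · exact e02.symm
    · exact e12.symm
    · exact absurd rfl hij
  own := by
    intro j
    fin_cases j
    · show 1 * Real.cos ((((1 : ℕ) : ℤ) : ℝ) * (Real.pi / (30 * k : ℕ))) =
        Real.cos (Real.pi / (30 * k : ℕ))
      simp
    · show 2 * Real.cos (Real.pi / (30 * k : ℕ)) *
        Real.cos ((((6 * k : ℕ) : ℤ) : ℝ) * (Real.pi / (30 * k : ℕ))) =
        2 * Real.cos (Real.pi / (30 * k : ℕ)) * Real.cos (Real.pi / 5)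
      rw [ang_six hk0]
    · exact ang_twelve hk0
  next := by
    intro j
    fin_cases j
    · show 2 * Real.cos (Real.pi / (30 * k : ℕ)) *
        Real.cos ((((10 * k : ℕ) : ℤ) : ℝ) * (Real.pi / (30 * k : ℕ))) =
        Real.cos (Real.pi / (30 * k : ℕ))
      rw [ang_ten hk0]
      ring
    · show 2 * Real.cos (Real.pi / 5) *
        Real.cos ((((1 : ℕ) : ℤ) : ℝ) * (Real.pi / (30 * k : ℕ))) =
        2 * Real.cos (Real.pi / (30 * k : ℕ)) * Real.cos (Real.pi / 5)
      have : (((1 : ℕ) : ℤ) : ℝ) * (Real.pi / (30 * k : ℕ)) = Real.pi / (30 * k : ℕ) := by simp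
      rw [this]
      ring
    · show 1 * Real.cos ((((10 * k : ℕ) : ℤ) : ℝ) * (Real.pi / (30 * k : ℕ))) = 1 / 2
      rw [ang_ten hk0]
      ring
  third := by
    have h1 := cos_small (k := k) (by omega)
    have h2 := cos_fifth
    intro j x hx
    fin_cases j
    · change (2 : ℤ) ∣ x - (0 - 1) at hx
      show 2 * Real.cos (Real.pi / 5) * Real.cos ((x : ℝ) * (Real.pi / (30 * k : ℕ))) ≠
        Real.cos (Real.pi / (30 * k : ℕ))
      intro h
      obtain ⟨e, he⟩ : ∃ e, x = 2 * e - 1 := ⟨(x + 1) / 2, by omega⟩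
      apply case_zero h7 (by omega) e
      rw [← four_cos, ← he]
      have h3 : cc (30 * k) 1 = 2 * (2 * Real.cos (Real.pi / (30 * k : ℕ)) ^ 2 - 1) := by
        unfold cc
        rw [← Real.cos_two_mul]
        congr 2
        push_cast
        ring
      rw [h3]
      linear_combination 4 * Real.cos (Real.pi / (30 * k : ℕ)) * h
    · show 1 * Real.cos ((x : ℝ) * (Real.pi / (30 * k : ℕ))) ≠
        2 * Real.cos (Real.pi / (30 * k : ℕ)) * Real.cos (Real.pi / 5)
      have h3 := Real.cos_le_one ((x : ℝ) * (Real.pi / (30 * k : ℕ)))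
      have h4 : 1.4 < 2 * Real.cos (Real.pi / (30 * k : ℕ)) * Real.cos (Real.pi / 5) := by
        nlinarith
      intro h
      linarith
    · change (2 : ℤ) ∣ x - (1 - 0) at hx
      show 2 * Real.cos (Real.pi / (30 * k : ℕ)) *
        Real.cos ((x : ℝ) * (Real.pi / (30 * k : ℕ))) ≠ 1 / 2
      intro h
      obtain ⟨e, he⟩ : ∃ e, x = 2 * e - 1 := ⟨(x + 1) / 2, by omega⟩
      apply case_two hk hk0 e
      rw [← four_cos, ← he]
      linear_combination 2 * h
  par_own := by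
    intro j
    fin_cases j
    · show (2 : ℤ) ∣ 0 + ((1 : ℕ) : ℤ) - 1
      simp
    · show (2 : ℤ) ∣ 1 + ((6 * k : ℕ) : ℤ) - 1
      push_cast; omega
    · show (2 : ℤ) ∣ 0 + ((12 * k : ℕ) : ℤ) - 0
      push_cast; omega
  par_next := by
    intro j
    fin_cases j
    · show (2 : ℤ) ∣ 1 + ((10 * k : ℕ) : ℤ) - 1
      push_cast; omega
    · show (2 : ℤ) ∣ 0 + ((1 : ℕ) : ℤ) - 1
      simp
    · show (2 : ℤ) ∣ 0 + ((10 * k : ℕ) : ℤ) - 0
      push_cast; omega
  rs := by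
    intro j
    fin_cases j
    · show 1 ≤ 1 ∧ 2 * 1 < 30 * k
      omega
    · show 1 ≤ 6 * k ∧ 2 * (6 * k) < 30 * k
      omega
    · show 1 ≤ 12 * k ∧ 2 * (12 * k) < 30 * k
      omega
  rt := by
    intro j
    fin_cases j
    · show 1 ≤ 10 * k ∧ 2 * (10 * k) < 30 * k
      omega
    · show 1 ≤ 1 ∧ 2 * 1 < 30 * k
      omega
    · show 1 ≤ 10 * k ∧ 2 * (10 * k) < 30 * k
      omega

lemma sporadic_symbol (hk : 2 ∣ k) (hk0 : 0 < k) :
    Sporadic (30 * k) ![1, 6 * k, 12 * k] ![10 * k, 1, 10 * k] := by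
  have hS : (entries ![1, 6 * k, 12 * k]).sum = 1 + 18 * k := by
    simp [entries]; ring
  have hT : (entries ![10 * k, 1, 10 * k]).sum = 1 + 20 * k := by
    simp [entries]; ring
  constructor
  · intro h
    rw [h, hT] at hS
    omega
  · rintro ⟨p, q, r, hp, hq, hr, h⟩
    rcases h with ⟨hm, h⟩ | ⟨hm, h⟩ | ⟨hm, h⟩ | ⟨hm, h⟩
    · rcases h with ⟨h1, h2⟩ | ⟨h1, h2⟩
      · rw [h1] at hS
        simp at hS
        push_cast at hm
        omega
      · rw [h2] at hT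
        simp at hT
        push_cast at hm
        omega
    · rcases h with ⟨h1, h2⟩ | ⟨h1, h2⟩
      · rw [h2] at hT
        simp at hT
        push_cast at hm
        omega
      · rw [h1] at hS
        simp at hS
        push_cast at hm
        omega
    · rcases h with ⟨h1, h2⟩ | ⟨h1, h2⟩
      · have h3 : r ∈ entries ![10 * k, 1, 10 * k] := by rw [h2]; simp
        simp [entries] at h3
        rw [h1] at hS
        simp at hS
        push_cast at hm
        omega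
      · have h3 : 2 * q ∈ entries ![1, 6 * k, 12 * k] := by rw [h1]; simp
        simp [entries] at h3
        push_cast at hm
        omega
    · rcases h with ⟨h1, h2⟩ | ⟨h1, h2⟩
      · rw [h1] at hS
        simp at hS
        push_cast at hm
        omega
      · rw [h2] at hT
        simp at hT
        push_cast at hm
        omega

end numbers

/-- There are infinitely many `m` for which a connected sporadic 3-astral 4-configuration with `m`
points in each orbit exists. -/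
theorem result :
    {m : ℕ | ∃ (P : Fin 3 → Set ℂ) (L : Fin 3 → Set (Set ℂ)) (s t : Fin 3 → ℕ),
      IsThreeAstral m P L s t ∧ (incGraph (⋃ j, P j) (⋃ j, L j)).Connected ∧
        Sporadic m s t}.Infinite := by
  apply Set.infinite_of_forall_exists_gt
  intro a
  have hk : 2 ∣ 2 ^ (a + 1) := dvd_pow_self 2 (by omega)
  have hk0 : 0 < 2 ^ (a + 1) := by positivity
  have h7 : Nat.Coprime 7 (30 * 2 ^ (a + 1)) := by
    apply Nat.Coprime.mul_right (by norm_num)
    apply Nat.Coprime.pow_right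
    norm_num
  refine ⟨30 * 2 ^ (a + 1), ⟨(theData _ hk hk0 h7).P, (theData _ hk hk0 h7).L,
    (theData _ hk hk0 h7).s, (theData _ hk hk0 h7).t, (theData _ hk hk0 h7).isThreeAstral,
    (theData _ hk hk0 h7).connected rfl, sporadic_symbol hk hk0⟩, ?_⟩
  have : a < 2 ^ a := Nat.lt_two_pow_self
  rw [pow_succ]
  omega

end Pool.Agent.Results.MP_abecca_co.SporadicFamily
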